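import Mathlib

/-! # Bi-Lipschitz maps and one-variable profiles: the gradient is comparable to the derivative
of the profile -/

set_option autoImplicit false

open Set Real Topology Metric MeasureTheory Filter
open scoped ContDiff NNReal

namespace Pool.Agent.Y911.BL

variable {E : Type*} [NormedAddCommGroup E] [InnerProductSpace ℝ E] [FiniteDimensional ℝ E]

omit [FiniteDimensional ℝ E] in
/-- the derivative of an expanding map is expanding -/
lemma expand {Φ : E → E} {A : E →L[ℝ] E} {x : E} (hA : HasFDerivAt Φ A x) {c : ℝ} (hc : 0 < c)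
    (h : ∀ᶠ y in 𝓝 x, c * ‖y - x‖ ≤ ‖Φ y - Φ x‖) (v : E) : c / 2 * ‖v‖ ≤ ‖A v‖ := by
  have h1 := (hasFDerivAt_iff_isLittleO.1 hA).def (show 0 < c / 2 by positivity)
  obtain ⟨η, hη, hη2⟩ := Metric.eventually_nhds_iff.1 (h1.and h)
  by_cases hv : v = 0
  · simp [hv]
  have hvn : 0 < ‖v‖ := norm_pos_iff.2 hv
  set t : ℝ := η / (2 * ‖v‖) with ht
  have ht0 : 0 < t := by positivity
  have hd : dist (x + t • v) x < η := by
    rw [dist_eq_norm, add_sub_cancel_left, norm_smul, Real.norm_eq_abs, abs_of_pos ht0, ht]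
    have : η / (2 * ‖v‖) * ‖v‖ = η / 2 := by field_simp
    rw [this]
    linarith
  obtain ⟨h2, h3⟩ := hη2 hd
  simp only [add_sub_cancel_left] at h2 h3
  have h4 : ‖t • v‖ = t * ‖v‖ := by rw [norm_smul, Real.norm_eq_abs, abs_of_pos ht0]
  have h5 : ‖A (t • v)‖ = t * ‖A v‖ := by
    rw [map_smul, norm_smul, Real.norm_eq_abs, abs_of_pos ht0]
  have h6 : ‖Φ (x + t • v) - Φ x‖ ≤ ‖Φ (x + t • v) - Φ x - A (t • v)‖ + ‖A (t • v)‖ := by
    have := norm_add_le (Φ (x + t • v) - Φ x - A (t • v)) (A (t • v))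
    rwa [sub_add_cancel] at this
  rw [h4] at h2 h3
  rw [h5] at h6
  have h7 : t * (c / 2 * ‖v‖) ≤ t * ‖A v‖ := by nlinarith
  exact le_of_mul_le_mul_left h7 ht0

/-- the comparison at points of differentiability -/
lemma good {u V V' : ℝ → ℝ} {w : E → ℝ} {Φ : E → E} {a x : E} (ha : ‖a‖ = 1) {c C : ℝ}
    (hc : 0 < c) {s : Set E} (hs : IsOpen s) (hx : x ∈ s)
    (hΦ : ∀ y ∈ s, ∀ z ∈ s, c * ‖y - z‖ ≤ ‖Φ y - Φ z‖ ∧ ‖Φ y - Φ z‖ ≤ C * ‖y - z‖)
    (hV : ∀ s, HasDerivAt V (V' s) s) (hrep : ∀ y ∈ s, w y = V (inner ℝ (Φ y) a))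
    (hd : DifferentiableAt ℝ Φ x) :
    c / 2 * |V' (inner ℝ (Φ x) a)| ≤ ‖fderiv ℝ w x‖ ∧
      ‖fderiv ℝ w x‖ ≤ |V' (inner ℝ (Φ x) a)| * (max C 0) := by
  set A := fderiv ℝ Φ x with hAdef
  have hA : HasFDerivAt Φ A x := hd.hasFDerivAt
  have hsn : s ∈ 𝓝 x := hs.mem_nhds hx
  have hexp : ∀ v, c / 2 * ‖v‖ ≤ ‖A v‖ :=
    expand hA hc (by filter_upwards [hsn] with y hy using (hΦ y hy x hx).1)
  have hlip : LipschitzOnWith (Real.toNNReal C) Φ s := by
    apply LipschitzOnWith.of_dist_le_mul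
    intro y hy z hz
    rw [dist_eq_norm, dist_eq_norm]
    refine (hΦ y hy z hz).2.trans ?_
    gcongr
    exact Real.le_coe_toNNReal C
  have hAn : ‖A‖ ≤ max C 0 := by
    have := hA.le_of_lipschitzOn hsn hlip
    simpa using this
  have hinj : Function.Injective A := by
    rw [injective_iff_map_eq_zero]
    intro v hv
    have := hexp v
    rw [hv, norm_zero] at this
    have h2 : ‖v‖ ≤ 0 := by
      by_contra h3
      push Not at h3
      have : 0 < c / 2 * ‖v‖ := by positivity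
      linarith
    exact norm_le_zero_iff.1 h2
  have hsurj : Function.Surjective A :=
    (LinearMap.injective_iff_surjective (f := (A : E →ₗ[ℝ] E))).1 hinj
  obtain ⟨v, hv⟩ := hsurj a
  have hg : HasFDerivAt (fun y => inner ℝ (Φ y) a) ((innerSL ℝ a).comp A) x := by
    have h1 := (innerSL ℝ a).hasFDerivAt.comp x hA
    have e : (fun y => inner ℝ (Φ y) a) = (innerSL ℝ a) ∘ Φ := by
      ext y
      simp [real_inner_comm]
    rw [e]
    exact h1
  have hw : HasFDerivAt w (V' (inner ℝ (Φ x) a) • (innerSL ℝ a).comp A) x := by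
    have h1 := (hV (inner ℝ (Φ x) a)).comp_hasFDerivAt x hg
    refine h1.congr_of_eventuallyEq ?_
    filter_upwards [hsn] with y hy
    exact hrep y hy
  rw [hw.fderiv]
  constructor
  · have h1 := ContinuousLinearMap.le_opNorm (V' (inner ℝ (Φ x) a) • (innerSL ℝ a).comp A) v
    have h2 : (V' (inner ℝ (Φ x) a) • (innerSL ℝ a).comp A) v = V' (inner ℝ (Φ x) a) := by
      simp only [ContinuousLinearMap.smul_apply, ContinuousLinearMap.comp_apply,
        innerSL_apply_apply, hv, smul_eq_mul]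
      rw [real_inner_self_eq_norm_sq, ha]
      ring
    rw [h2, Real.norm_eq_abs] at h1
    have h3 := hexp v
    rw [hv, ha] at h3
    have h4 : c / 2 * |V' (inner ℝ (Φ x) a)| ≤
        ‖V' (inner ℝ (Φ x) a) • (innerSL ℝ a).comp A‖ * (c / 2 * ‖v‖) := by
      have := mul_le_mul_of_nonneg_left h1 (show 0 ≤ c / 2 by positivity)
      linarith
    refine h4.trans ?_
    exact mul_le_of_le_one_right (norm_nonneg _) h3
  · rw [norm_smul, Real.norm_eq_abs]
    refine mul_le_mul_of_nonneg_left ?_ (abs_nonneg _)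
    refine (ContinuousLinearMap.opNorm_comp_le _ _).trans ?_
    rw [innerSL_apply_norm, ha, one_mul]
    exact hAn

/-- the comparison at every point of the open set -/
lemma compare [MeasurableSpace E] [BorelSpace E] {V V' : ℝ → ℝ} {w : E → ℝ} {Φ : E → E} {a : E}
    (ha : ‖a‖ = 1) {c C : ℝ} (hc : 0 < c) {s : Set E} (hs : IsOpen s)
    (hΦ : ∀ y ∈ s, ∀ z ∈ s, c * ‖y - z‖ ≤ ‖Φ y - Φ z‖ ∧ ‖Φ y - Φ z‖ ≤ C * ‖y - z‖)
    (hV : ∀ s, HasDerivAt V (V' s) s) (hVc : Continuous V')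
    (hrep : ∀ y ∈ s, w y = V (inner ℝ (Φ y) a))
    (hw : ContDiff ℝ ∞ w) {x : E} (hx : x ∈ s) :
    c / 2 * |V' (inner ℝ (Φ x) a)| ≤ ‖fderiv ℝ w x‖ ∧
      ‖fderiv ℝ w x‖ ≤ |V' (inner ℝ (Φ x) a)| * (max C 0) := by
  have hlip : LipschitzOnWith (Real.toNNReal C) Φ s := by
    apply LipschitzOnWith.of_dist_le_mul
    intro y hy z hz
    rw [dist_eq_norm, dist_eq_norm]
    refine (hΦ y hy z hz).2.trans ?_
    gcongr
    exact Real.le_coe_toNNReal C
  have hsn : s ∈ 𝓝 x := hs.mem_nhds hx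
  have hae : ∀ᵐ y ∂(volume : Measure E), y ∈ s → DifferentiableAt ℝ Φ y := by
    filter_upwards [hlip.ae_differentiableWithinAt_of_mem (μ := (volume : Measure E))] with y hy hys
    exact (hy hys).differentiableAt (hs.mem_nhds hys)
  have hdense : Dense {y | y ∈ s → DifferentiableAt ℝ Φ y} :=
    MeasureTheory.Measure.dense_of_ae hae
  have hfreq : ∃ᶠ y in 𝓝 x, y ∈ s → DifferentiableAt ℝ Φ y :=
    mem_closure_iff_frequently.1 (hdense x)
  have hgc : ContinuousAt (fun y => V' (inner ℝ (Φ y) a)) x := by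
    have h1 : ContinuousAt Φ x := hlip.continuousOn.continuousAt hsn
    have h2 : ContinuousAt (fun y => inner ℝ (Φ y) a) x := h1.inner continuousAt_const
    exact ContinuousAt.comp (f := fun y => inner ℝ (Φ y) a) (g := V') hVc.continuousAt h2
  have hfc : ContinuousAt (fun y => ‖fderiv ℝ w y‖) x :=
    ((hw.continuous_fderiv (by norm_num)).norm).continuousAt
  have hboth : ∀ y ∈ s, DifferentiableAt ℝ Φ y →
      c / 2 * |V' (inner ℝ (Φ y) a)| ≤ ‖fderiv ℝ w y‖ ∧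
      ‖fderiv ℝ w y‖ ≤ |V' (inner ℝ (Φ y) a)| * (max C 0) :=
    fun y hy hd => good (u := V) ha hc hs hy hΦ hV hrep hd
  constructor
  · by_contra hcon
    push Not at hcon
    have hev : ∀ᶠ y in 𝓝 x, ‖fderiv ℝ w y‖ < c / 2 * |V' (inner ℝ (Φ y) a)| :=
      hfc.eventually_lt (continuousAt_const.mul hgc.abs) hcon
    obtain ⟨y, hy1, hy2, hy3⟩ := (hfreq.and_eventually (hev.and hsn)).exists
    exact absurd (hboth y hy3 (hy1 hy3)).1 (not_le.2 hy2)
  · by_contra hcon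
    push Not at hcon
    have hev : ∀ᶠ y in 𝓝 x, |V' (inner ℝ (Φ y) a)| * (max C 0) < ‖fderiv ℝ w y‖ :=
      (hgc.abs.mul continuousAt_const).eventually_lt hfc hcon
    obtain ⟨y, hy1, hy2, hy3⟩ := (hfreq.and_eventually (hev.and hsn)).exists
    exact absurd (hboth y hy3 (hy1 hy3)).2 (not_le.2 hy2)

/-- no `C¹` profile composed with a bi-Lipschitz map has, along a curve in a level set, a
critical point at the start and a non-critical point at the end -/
theorem no_profile [MeasurableSpace E] [BorelSpace E] {V V' : ℝ → ℝ} {w : E → ℝ} {Φ : E → E}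
    {a : E} (ha : ‖a‖ = 1) {c C : ℝ} (hc : 0 < c) {s : Set E} (hs : IsOpen s)
    (hΦ : ∀ y ∈ s, ∀ z ∈ s, c * ‖y - z‖ ≤ ‖Φ y - Φ z‖ ∧ ‖Φ y - Φ z‖ ≤ C * ‖y - z‖)
    (hV : ∀ s, HasDerivAt V (V' s) s) (hVc : Continuous V')
    (hrep : ∀ y ∈ s, w y = V (inner ℝ (Φ y) a))
    (hw : ContDiff ℝ ∞ w) {p : ℝ → E} {r : ℝ} (hr : 0 < r) (hp : Continuous p)
    (hps : ∀ t ∈ Icc 0 r, p t ∈ s) {b : ℝ} (hlev : ∀ t ∈ Icc 0 r, w (p t) = b)
    (h0 : fderiv ℝ w (p 0) = 0) (h1 : fderiv ℝ w (p r) ≠ 0) : False := by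
  have m0 : (0 : ℝ) ∈ Icc 0 r := ⟨le_rfl, hr.le⟩
  have m1 : r ∈ Icc 0 r := ⟨hr.le, le_rfl⟩
  have hlip : LipschitzOnWith (Real.toNNReal C) Φ s := by
    apply LipschitzOnWith.of_dist_le_mul
    intro y hy z hz
    rw [dist_eq_norm, dist_eq_norm]
    refine (hΦ y hy z hz).2.trans ?_
    gcongr
    exact Real.le_coe_toNNReal C
  set γ : ℝ → ℝ := fun t => inner ℝ (Φ (p t)) a with hγ
  have hγc : ContinuousOn γ (Icc 0 r) := by
    have h2 : ContinuousOn (fun t => Φ (p t)) (Icc 0 r) :=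
      hlip.continuousOn.comp hp.continuousOn hps
    exact h2.inner continuousOn_const
  have hV0 : V' (γ 0) = 0 := by
    have := (compare ha hc hs hΦ hV hVc hrep hw (hps 0 m0)).1
    rw [h0, norm_zero] at this
    have h2 : |V' (γ 0)| ≤ 0 := by
      by_contra h3
      push Not at h3
      have : 0 < c / 2 * |V' (γ 0)| := by positivity
      change c / 2 * |V' (γ 0)| ≤ 0 at *
      linarith
    exact abs_nonpos_iff.1 h2
  have hV1 : V' (γ r) ≠ 0 := by
    intro h2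
    have := (compare ha hc hs hΦ hV hVc hrep hw (hps r m1)).2
    change _ ≤ |V' (γ r)| * _ at this
    rw [h2, abs_zero, zero_mul] at this
    exact h1 (norm_le_zero_iff.1 this)
  have hne : γ 0 ≠ γ r := by
    intro h2
    rw [h2] at hV0
    exact hV1 hV0
  have hconst : ∀ σ ∈ uIcc (γ 0) (γ r), V σ = b := by
    intro σ hσ
    have h2 : ContinuousOn γ (uIcc 0 r) := by rwa [uIcc_of_le hr.le]
    obtain ⟨t, ht, rfl⟩ := intermediate_value_uIcc h2 hσ
    rw [uIcc_of_le hr.le] at ht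
    rw [← hlev t ht, hrep _ (hps t ht)]
  have hud : UniqueDiffWithinAt ℝ (uIcc (γ 0) (γ r)) (γ r) :=
    uniqueDiffOn_Icc (inf_lt_sup.2 hne) _ right_mem_uIcc
  have d1 : HasDerivWithinAt V (V' (γ r)) (uIcc (γ 0) (γ r)) (γ r) := (hV _).hasDerivWithinAt
  have d2 : HasDerivWithinAt V 0 (uIcc (γ 0) (γ r)) (γ r) :=
    (hasDerivWithinAt_const (γ r) (uIcc (γ 0) (γ r)) b).congr hconst (hconst _ right_mem_uIcc)
  exact hV1 (hud.eq_deriv _ d1 d2)

end Pool.Agent.Y911.BL
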