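import Pool.Agent.H123R3.C1.OneD
import Pool.Agent.Y911.BL.Rad

/-! # No bi-Lipschitz representation near the centre -/

set_option autoImplicit false

open Set Real Topology Metric MeasureTheory Filter
open scoped ContDiff Laplacian

namespace Pool.Agent.Y911.BL

open Pool.Agent.H123R3.C1

/-- three-dimensional Euclidean space -/
abbrev EE := EuclideanSpace ℝ (Fin 3)

/-- the diagonal curve in the zero level set -/
noncomputable def pp (t : ℝ) : EE := WithLp.toLp 2 ![t, t, 0]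

lemma pp_0 (t : ℝ) : pp t 0 = t := rfl
lemma pp_1 (t : ℝ) : pp t 1 = t := rfl
lemma pp_2 (t : ℝ) : pp t 2 = 0 := rfl

lemma pp_cont : Continuous pp := by
  unfold pp
  apply (PiLp.continuous_toLp 2 _).comp
  apply continuous_pi
  intro i
  fin_cases i
  · exact continuous_id
  · exact continuous_id
  · exact continuous_const

lemma pp_norm (t : ℝ) : ‖pp t‖ ^ 2 = 2 * t ^ 2 := by
  rw [EuclideanSpace.norm_sq_eq, Fin.sum_univ_three, pp_0, pp_1, pp_2]
  simp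
  ring

lemma pp_zero : pp 0 = 0 := by
  ext i
  fin_cases i
  · exact pp_0 0
  · exact pp_1 0
  · exact pp_2 0

lemma uu_pp (β t : ℝ) : uu β (pp t) = β := by
  unfold uu U
  rw [pp_0, pp_1, pp_2]
  ring

/-- directional derivative of the polynomial -/
lemma fderiv_uu (β : ℝ) (X v : EE) : fderiv ℝ (uu β) X v =
    Up (X 0 ^ 2) (X 1 ^ 2) (X 2) * (2 * X 0 * v 0) + Uq (X 0 ^ 2) (X 1 ^ 2) (X 2) * (2 * X 1 * v 1) +
      Uz (X 0 ^ 2) (X 1 ^ 2) (X 2) * v 2 := by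
  have hd : HasFDerivAt (uu β) (fderiv ℝ (uu β) X) (X + (0 : ℝ) • v) := by
    rw [zero_smul, add_zero]
    exact ((uu_smooth β).differentiable (by norm_num)).differentiableAt.hasFDerivAt
  have line : HasDerivAt (fun s : ℝ => X + s • v) v 0 := by
    simpa using ((hasDerivAt_id (0 : ℝ)).smul_const v).const_add X
  have h1 := hd.comp_hasDerivAt (0 : ℝ) line
  have l : ∀ i : Fin 3, HasDerivAt (fun s : ℝ => X i + s * v i) (v i) 0 := by
    intro i
    simpa using ((hasDerivAt_id (0 : ℝ)).mul_const (v i)).const_add (X i)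
  have h2 := (hasDerivAt_U ((l 0).pow 2) ((l 1).pow 2) (l 2)).const_add β
  have e : (uu β) ∘ (fun s : ℝ => X + s • v) =
      fun s => β + U ((X 0 + s * v 0) ^ 2) ((X 1 + s * v 1) ^ 2) (X 2 + s * v 2) := by
    ext s
    unfold uu
    simp
  rw [e] at h1
  have h3 := h1.unique h2
  rw [h3]
  simp

lemma fderiv_uu_zero (β : ℝ) : fderiv ℝ (uu β) (pp 0) = 0 := by
  ext v
  rw [fderiv_uu, pp_0, pp_1, pp_2]
  unfold Uz
  simp

lemma fderiv_uu_pp (β : ℝ) {t : ℝ} (h0 : 0 < t) (h1 : t ≤ 1) : fderiv ℝ (uu β) (pp t) ≠ 0 := by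
  intro h
  have h2 := fderiv_uu β (pp t) (EuclideanSpace.single 0 1)
  rw [h, pp_0, pp_1, pp_2] at h2
  unfold Up at h2
  simp at h2
  have ht : t ≠ 0 := h0.ne'
  have hp : t ^ 2 ≤ 1 := by nlinarith
  have hp0 : 0 < t ^ 2 := by positivity
  rcases h2 with h2 | h2
  · have h4 : 0 < (t ^ 2) ^ 2 := by positivity
    have h6 : 0 < (t ^ 2) ^ 3 := by positivity
    nlinarith
  · exact ht h2

theorem main (f : ℝ → ℝ) (hf : Continuous f) (hs : HasCompactSupport f) (h0 : ∀ t, 0 ≤ f t) :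
    ∃ u : EE → ℝ, ContDiff ℝ ∞ u ∧ (∀ x ∈ ball (0 : EE) 1, (Δ u) x = f (u x)) ∧
      (∃ (V V' : ℝ → ℝ) (a : EE) (Φ : closedBall (0 : EE) 1 ≃ₜ closedBall (0 : EE) 1),
        (∀ s, HasDerivAt V (V' s) s) ∧ (∀ s, HasDerivAt V' (f (V s)) s) ∧ ‖a‖ = 1 ∧
        ∀ x : closedBall (0 : EE) 1, u x = V (inner ℝ (Φ x : EE) a)) ∧
      ∀ (δ c C : ℝ) (V V' : ℝ → ℝ) (a : EE) (Φ : EE → EE), 0 < δ → 0 < c →
        (∀ s, HasDerivAt V (V' s) s) → Continuous V' → ‖a‖ = 1 →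
        (∀ x ∈ ball (0 : EE) δ, ∀ y ∈ ball (0 : EE) δ,
          c * ‖x - y‖ ≤ ‖Φ x - Φ y‖ ∧ ‖Φ x - Φ y‖ ≤ C * ‖x - y‖) →
        (∀ x ∈ ball (0 : EE) δ, u x = V (inner ℝ (Φ x) a)) → False := by
  obtain ⟨β, V, V', hz, hV1, hV, hV'⟩ := exists_V hf hs h0 (α := 8630) (by norm_num)
  obtain ⟨Φ, hΦ⟩ := exists_Phi
  have hle : ∀ x : closedBall (0 : EE) 1, (Φ x).1 2 ≤ 1 := by
    intro x
    have := (mem_ball_iff _).1 (Φ x).2
    nlinarith [sq_nonneg ((Φ x).1 0), sq_nonneg ((Φ x).1 1)]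
  have hu : ∀ x : closedBall (0 : EE) 1, uu β x = β + 8630 * (Φ x).1 2 := by
    intro x
    unfold uu
    rw [hΦ x]
  refine ⟨uu β, uu_smooth β, fun x hx => ?_, ⟨V, V', EuclideanSpace.single 2 1, Φ, hV, hV',
    by simp, fun x => ?_⟩, ?_⟩
  · rw [lap_uu]
    have h1 := hu ⟨x, ball_subset_closedBall hx⟩
    rw [hz (uu β x)]
    have h2 := hle ⟨x, ball_subset_closedBall hx⟩
    change uu β x = _ at h1
    rw [h1]
    linarith
  · have e : inner ℝ (Φ x : EE) (EuclideanSpace.single 2 1) = (Φ x).1 2 := by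
      rw [EuclideanSpace.inner_single_right]
      simp
    rw [e, hV1 _ (hle x), hu x]
  · intro δ c C W W' a Ψ hδ hc hW hWc ha hΨ hrep
    set r := min (δ / 2) 1 with hr
    have hr0 : 0 < r := by positivity
    have hr1 : r ≤ 1 := min_le_right _ _
    have hr2 : r ≤ δ / 2 := min_le_left _ _
    refine no_profile ha hc isOpen_ball hΨ hW hWc hrep (uu_smooth β) hr0 pp_cont ?_
      (fun t _ => uu_pp β t) (fderiv_uu_zero β) (fderiv_uu_pp β hr0 hr1)
    intro t ht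
    rw [mem_ball_zero_iff]
    have h2 := pp_norm t
    have h3 : t ^ 2 ≤ (δ / 2) ^ 2 := pow_le_pow_left₀ ht.1 (ht.2.trans hr2) 2
    nlinarith [norm_nonneg (pp t)]

end Pool.Agent.Y911.BL
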